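import Pool.Agent.Helper54.LM.Defs

/-! LBF: many lattice vectors with small differences (MP_9a3c31_nt). -/

open Filter Topology NumberField

namespace Pool.Agent.Helper19.LM

open Pool.Agent.Helper42.LS Pool.Agent.Helper42.LK Pool.Agent.Helper54.LM

/-- real form of positivity -/
def LBF_pos {m : ℕ} (G : Matrix (Fin m) (Fin m) ℝ) : Prop :=
  (∀ i j, G i j = G j i) ∧ ∀ x : Fin m → ℝ, x ≠ 0 → 0 < ∑ i, ∑ j, x i * x j * G i j

theorem LBF_of_posDef {m : ℕ} {G : Matrix (Fin m) (Fin m) ℝ} (h : G.PosDef) : LBF_pos G := by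
  refine ⟨fun i j => ?_, fun x hx => ?_⟩
  · have := h.1.apply i j
    simpa using this.symm
  · have := h.dotProduct_mulVec_pos hx
    simp only [dotProduct, Matrix.mulVec, Finset.mul_sum, Pi.star_apply, star_trivial] at this
    refine lt_of_lt_of_eq this ?_
    refine Finset.sum_congr rfl fun i _ => Finset.sum_congr rfl fun j _ => ?_
    ring

/-- Schur complement -/
noncomputable def LBF_sc {m : ℕ} (G : Matrix (Fin (m + 1)) (Fin (m + 1)) ℝ) : Matrix (Fin m) (Fin m) ℝ :=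
  fun i j => G i.succ j.succ - G i.succ 0 * G 0 j.succ / G 0 0

theorem LBF_identity {m : ℕ} (G : Matrix (Fin (m + 1)) (Fin (m + 1)) ℝ)
    (hs : ∀ i j, G i j = G j i) (hg : G 0 0 ≠ 0) (x : Fin (m + 1) → ℝ) :
    ∑ i, ∑ j, x i * x j * G i j =
      G 0 0 * (x 0 + (∑ j : Fin m, G 0 j.succ * x j.succ) / G 0 0) ^ 2 +
        ∑ i : Fin m, ∑ j : Fin m, x i.succ * x j.succ * LBF_sc G i j := by
  have e1 : ∑ i, ∑ j, x i * x j * G i j =
      x 0 * x 0 * G 0 0 + x 0 * (∑ j : Fin m, G 0 j.succ * x j.succ) +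
        (x 0 * (∑ j : Fin m, G 0 j.succ * x j.succ) +
          ∑ i : Fin m, ∑ j : Fin m, x i.succ * x j.succ * G i.succ j.succ) := by
    rw [Fin.sum_univ_succ, Fin.sum_univ_succ]
    simp_rw [Fin.sum_univ_succ (n := m)]
    rw [Finset.sum_add_distrib, Finset.mul_sum]
    congr 1
    · congr 1
      exact Finset.sum_congr rfl fun i _ => by ring
    · congr 1
      exact Finset.sum_congr rfl fun i _ => by rw [hs i.succ 0]; ring
  have e2 : ∑ i : Fin m, ∑ j : Fin m, x i.succ * x j.succ * LBF_sc G i j =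
      ∑ i : Fin m, ∑ j : Fin m, x i.succ * x j.succ * G i.succ j.succ -
        (∑ j : Fin m, G 0 j.succ * x j.succ) ^ 2 / G 0 0 := by
    have : (∑ j : Fin m, G 0 j.succ * x j.succ) ^ 2 / G 0 0 =
        ∑ i : Fin m, ∑ j : Fin m, x i.succ * x j.succ * (G i.succ 0 * G 0 j.succ / G 0 0) := by
      rw [sq, Finset.sum_mul_sum, Finset.sum_div]
      refine Finset.sum_congr rfl fun i _ => ?_
      rw [Finset.sum_div]
      refine Finset.sum_congr rfl fun j _ => ?_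
      rw [hs i.succ 0]; ring
    rw [this, ← Finset.sum_sub_distrib]
    refine Finset.sum_congr rfl fun i _ => ?_
    rw [← Finset.sum_sub_distrib]
    refine Finset.sum_congr rfl fun j _ => ?_
    unfold LBF_sc; ring
  rw [e1, e2]
  field_simp
  ring

theorem LBF_g_pos {m : ℕ} {G : Matrix (Fin (m + 1)) (Fin (m + 1)) ℝ} (h : LBF_pos G) :
    0 < G 0 0 := by
  have h1 := h.2 (Pi.single 0 1) (by
    intro h0
    have := congrFun h0 0
    simp at this)
  have e : ∑ i, ∑ j, (Pi.single 0 1 : Fin (m + 1) → ℝ) i * (Pi.single 0 1 : Fin (m + 1) → ℝ) j *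
      G i j = G 0 0 := by
    rw [Finset.sum_eq_single 0, Finset.sum_eq_single 0]
    · simp
    · intro j _ hj; simp [hj]
    · simp
    · intro i _ hi
      refine Finset.sum_eq_zero fun j _ => ?_
      simp [hi]
    · simp
  rwa [e] at h1

theorem LBF_sc_pos {m : ℕ} {G : Matrix (Fin (m + 1)) (Fin (m + 1)) ℝ} (h : LBF_pos G) :
    LBF_pos (LBF_sc G) := by
  have hg := LBF_g_pos h
  refine ⟨fun i j => ?_, fun x hx => ?_⟩
  · unfold LBF_sc
    rw [h.1 i.succ j.succ, h.1 i.succ 0, h.1 0 j.succ]; ring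
  · have h1 := h.2 (Fin.cons (-(∑ j : Fin m, G 0 j.succ * x j) / G 0 0) x : Fin (m + 1) → ℝ) (by
      intro h0
      apply hx
      funext i
      have := congrFun h0 i.succ
      simpa using this)
    rw [LBF_identity G h.1 hg.ne'] at h1
    simp only [Fin.cons_zero, Fin.cons_succ] at h1
    have e : (-(∑ j : Fin m, G 0 j.succ * x j) / G 0 0 +
        (∑ j : Fin m, G 0 j.succ * x j) / G 0 0) = 0 := by ring
    rw [e] at h1
    simpa using h1

theorem LBF_det {m : ℕ} (G : Matrix (Fin (m + 1)) (Fin (m + 1)) ℝ) (hg : G 0 0 ≠ 0) :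
    G.det = G 0 0 * (LBF_sc G).det := by
  let M : Matrix (Fin (m + 1)) (Fin (m + 1)) ℝ :=
    Fin.cons (G 0) (fun i : Fin m => fun j => G i.succ j - G i.succ 0 / G 0 0 * G 0 j)
  have h1 : G.det = M.det := by
    refine Matrix.det_eq_of_forall_row_eq_smul_add_const
      (Fin.cons 0 (fun i : Fin m => G i.succ 0 / G 0 0)) 0 (by simp) (fun i j => ?_)
    refine Fin.cases ?_ (fun i => ?_) i
    · simp [M]
    · simp [M]
  rw [h1, Matrix.det_succ_column_zero, Fin.sum_univ_succ]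
  have h2 : ∀ i : Fin m, M i.succ 0 = 0 := by
    intro i
    simp only [M, Fin.cons_succ]
    field_simp
    ring
  simp only [h2, mul_zero, zero_mul, Finset.sum_const_zero, add_zero]
  have h3 : M.submatrix (Fin.succAbove 0) Fin.succ = LBF_sc G := by
    ext i j
    have e : M.submatrix (Fin.succAbove 0) Fin.succ i j = M i.succ j.succ := rfl
    rw [e]
    simp only [M, Fin.cons_succ, LBF_sc]
    ring
  rw [h3]
  simp [M]

/-- the value of the first coordinate -/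
noncomputable def LBF_v {m : ℕ} (G : Matrix (Fin (m + 1)) (Fin (m + 1)) ℝ)
    (a : Fin (m + 1) → ℤ) : ℝ :=
  (a 0 : ℝ) + (∑ j : Fin m, G 0 j.succ * (a j.succ : ℝ)) / G 0 0

theorem LBF_v_sub {m : ℕ} (G : Matrix (Fin (m + 1)) (Fin (m + 1)) ℝ)
    (a b : Fin (m + 1) → ℤ) : LBF_v G (a - b) = LBF_v G a - LBF_v G b := by
  unfold LBF_v
  have : ∑ j : Fin m, G 0 j.succ * (((a - b) j.succ : ℤ) : ℝ) =
      ∑ j : Fin m, G 0 j.succ * (a j.succ : ℝ) - ∑ j : Fin m, G 0 j.succ * (b j.succ : ℝ) := by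
    rw [← Finset.sum_sub_distrib]
    refine Finset.sum_congr rfl fun j _ => ?_
    simp only [Pi.sub_apply, Int.cast_sub]; ring
  rw [this]
  simp only [Pi.sub_apply, Int.cast_sub]
  ring

theorem LBF_qf {m : ℕ} (G : Matrix (Fin (m + 1)) (Fin (m + 1)) ℝ)
    (hs : ∀ i j, G i j = G j i) (hg : G 0 0 ≠ 0) (a b : Fin (m + 1) → ℤ) :
    qf G (a - b) = G 0 0 * (LBF_v G a - LBF_v G b) ^ 2 +
      qf (LBF_sc G) ((fun i : Fin m => a i.succ) - (fun i : Fin m => b i.succ)) := by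
  rw [← LBF_v_sub]
  unfold qf
  rw [LBF_identity G hs hg (fun i => ((a - b) i : ℝ))]
  rfl

/-- case `d ≥ 1` -/
theorem LBF_large {m : ℕ} (G : Matrix (Fin (m + 1)) (Fin (m + 1)) ℝ)
    (S' : Finset (Fin m → ℤ)) (d : ℝ) (hd : 1 ≤ d) :
    ∃ S : Finset (Fin (m + 1) → ℤ), (S'.card : ℝ) * d / 2 ≤ S.card ∧
      (∀ a ∈ S, (fun i : Fin m => a i.succ) ∈ S') ∧
      ∀ a ∈ S, ∀ b ∈ S, |LBF_v G a - LBF_v G b| ≤ d := by
  classical
  let β : (Fin m → ℤ) → ℝ := fun x => (∑ j : Fin m, G 0 j.succ * (x j : ℝ)) / G 0 0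
  let f : (Fin m → ℤ) × ℕ → (Fin (m + 1) → ℤ) := fun p => Fin.cons (⌈-β p.1⌉ + (p.2 : ℤ)) p.1
  let S := (S' ×ˢ Finset.range ⌊d⌋₊).image f
  have hinj : Function.Injective f := by
    intro p q h
    have h1 : p.1 = q.1 := by
      funext i
      have := congrFun h i.succ
      simpa [f] using this
    have h2 : p.2 = q.2 := by
      have := congrFun h 0
      simp only [f, Fin.cons_zero, h1] at this
      omega
    exact Prod.ext h1 h2
  have hcard : S.card = S'.card * ⌊d⌋₊ := by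
    simp only [S]
    rw [Finset.card_image_of_injective _ hinj, Finset.card_product, Finset.card_range]
  have hfl : d / 2 ≤ (⌊d⌋₊ : ℝ) := by
    have h1 : d < (⌊d⌋₊ : ℝ) + 1 := Nat.lt_floor_add_one d
    have h2 : 1 ≤ ⌊d⌋₊ := Nat.le_floor (by simpa using hd)
    have h3 : (1 : ℝ) ≤ (⌊d⌋₊ : ℝ) := by exact_mod_cast h2
    linarith
  have hval : ∀ a ∈ S, 0 ≤ LBF_v G a ∧ LBF_v G a < d := by
    intro a ha
    simp only [S, Finset.mem_image, Finset.mem_product, Finset.mem_range] at ha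
    obtain ⟨p, ⟨-, hp⟩, rfl⟩ := ha
    have e : LBF_v G (f p) = (⌈-β p.1⌉ : ℝ) + (p.2 : ℝ) + β p.1 := by
      unfold LBF_v
      simp only [f, Fin.cons_zero, Fin.cons_succ, β]
      push_cast
      ring
    have h1 := Int.le_ceil (-β p.1)
    have h2 := Int.ceil_lt_add_one (-β p.1)
    have h3 : (0 : ℝ) ≤ (p.2 : ℝ) := Nat.cast_nonneg _
    have h4 : (p.2 : ℝ) + 1 ≤ (⌊d⌋₊ : ℝ) := by exact_mod_cast hp
    have h5 : (⌊d⌋₊ : ℝ) ≤ d := Nat.floor_le (by linarith)
    rw [e]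
    constructor <;> linarith
  refine ⟨S, ?_, ?_, ?_⟩
  · rw [hcard]
    push_cast
    have : (0 : ℝ) ≤ (S'.card : ℝ) := Nat.cast_nonneg _
    nlinarith
  · intro a ha
    simp only [S, Finset.mem_image, Finset.mem_product, Finset.mem_range] at ha
    obtain ⟨p, ⟨hp, -⟩, rfl⟩ := ha
    simpa [f] using hp
  · intro a ha b hb
    have h1 := hval a ha
    have h2 := hval b hb
    rw [abs_le]
    constructor <;> linarith [h1.1, h1.2, h2.1, h2.2]

/-- case `d < 1` -/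
theorem LBF_small {m : ℕ} (G : Matrix (Fin (m + 1)) (Fin (m + 1)) ℝ)
    (S' : Finset (Fin m → ℤ)) (d : ℝ) (hd0 : 0 < d) (hd : d < 1) :
    ∃ S : Finset (Fin (m + 1) → ℤ), (S'.card : ℝ) * d / 2 ≤ S.card ∧
      (∀ a ∈ S, (fun i : Fin m => a i.succ) ∈ S') ∧
      ∀ a ∈ S, ∀ b ∈ S, |LBF_v G a - LBF_v G b| ≤ d := by
  classical
  let β : (Fin m → ℤ) → ℝ := fun x => (∑ j : Fin m, G 0 j.succ * (x j : ℝ)) / G 0 0
  let f : (Fin m → ℤ) → (Fin (m + 1) → ℤ) := fun p => Fin.cons (⌈-β p⌉) p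
  have hinj : Function.Injective f := by
    intro p q h
    funext i
    have := congrFun h i.succ
    simpa [f] using this
  have hval : ∀ p, 0 ≤ LBF_v G (f p) ∧ LBF_v G (f p) < 1 := by
    intro p
    have e : LBF_v G (f p) = (⌈-β p⌉ : ℝ) + β p := by
      unfold LBF_v
      simp only [f, Fin.cons_zero, Fin.cons_succ, β]
    have h1 := Int.le_ceil (-β p)
    have h2 := Int.ceil_lt_add_one (-β p)
    rw [e]
    constructor <;> linarith
  set N : ℕ := ⌈1 / d⌉₊ with hN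
  have hN1 : 1 / d ≤ (N : ℝ) := Nat.le_ceil _
  have hNpos : 0 < (N : ℝ) := lt_of_lt_of_le (by positivity) hN1
  have hNle : (N : ℝ) ≤ 2 / d := by
    have h1 : (N : ℝ) < 1 / d + 1 := Nat.ceil_lt_add_one (by positivity)
    have h2 : (1 : ℝ) ≤ 1 / d := by
      rw [le_div_iff₀ hd0]; linarith
    have h3 : 2 / d = 1 / d + 1 / d := by ring
    rw [h3]; linarith
  let g : (Fin m → ℤ) → ℕ := fun p => ⌊LBF_v G (f p) * N⌋₊
  have hg : ∀ p ∈ S', g p ∈ Finset.range N := by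
    intro p _
    rw [Finset.mem_range]
    have h1 : LBF_v G (f p) * N < N := by
      have := (hval p).2
      nlinarith
    exact (Nat.floor_lt (mul_nonneg (hval p).1 hNpos.le)).2 h1
  have hNne : (Finset.range N).Nonempty := by
    rw [Finset.nonempty_range_iff]
    intro h0
    rw [h0] at hNpos
    simp at hNpos
  obtain ⟨y, -, hy⟩ := Finset.exists_le_card_fiber_of_nsmul_le_card_of_maps_to
    (s := S') (t := Finset.range N) (f := g) (b := (S'.card : ℝ) / N) hg hNne (by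
      rw [Finset.card_range, nsmul_eq_mul, mul_div_cancel₀ _ hNpos.ne'])
  refine ⟨(S'.filter (fun p => g p = y)).image f, ?_, ?_, ?_⟩
  · rw [Finset.card_image_of_injective _ hinj]
    refine le_trans ?_ hy
    rw [le_div_iff₀ hNpos]
    have h0 : (0 : ℝ) ≤ (S'.card : ℝ) := Nat.cast_nonneg _
    have h1 : d * N ≤ 2 := by
      calc d * N ≤ d * (2 / d) := by gcongr
        _ = 2 := by field_simp
    calc (S'.card : ℝ) * d / 2 * N = (S'.card : ℝ) / 2 * (d * N) := by ring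
      _ ≤ (S'.card : ℝ) / 2 * 2 := by gcongr
      _ = S'.card := by ring
  · intro a ha
    simp only [Finset.mem_image, Finset.mem_filter] at ha
    obtain ⟨p, ⟨hp, -⟩, rfl⟩ := ha
    simpa [f] using hp
  · intro a ha b hb
    simp only [Finset.mem_image, Finset.mem_filter] at ha hb
    obtain ⟨p, ⟨-, hp⟩, rfl⟩ := ha
    obtain ⟨q, ⟨-, hq⟩, rfl⟩ := hb
    have p1 := Nat.floor_le (mul_nonneg (hval p).1 hNpos.le)
    have p2 := Nat.lt_floor_add_one (LBF_v G (f p) * N)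
    have q1 := Nat.floor_le (mul_nonneg (hval q).1 hNpos.le)
    have q2 := Nat.lt_floor_add_one (LBF_v G (f q) * N)
    have hp' : ⌊LBF_v G (f p) * N⌋₊ = y := hp
    have hq' : ⌊LBF_v G (f q) * N⌋₊ = y := hq
    rw [hp'] at p1 p2
    rw [hq'] at q1 q2
    have hdN : 1 ≤ d * N := by
      have := mul_le_mul_of_nonneg_left hN1 hd0.le
      rwa [mul_one_div_cancel hd0.ne'] at this
    have k1 : (LBF_v G (f p) - LBF_v G (f q)) * N ≤ d * N := by nlinarith
    have k2 : (LBF_v G (f q) - LBF_v G (f p)) * N ≤ d * N := by nlinarith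
    have k3 := le_of_mul_le_mul_right k1 hNpos
    have k4 := le_of_mul_le_mul_right k2 hNpos
    rw [abs_le]
    constructor <;> linarith

theorem LBF_step {m : ℕ} (G : Matrix (Fin (m + 1)) (Fin (m + 1)) ℝ)
    (S' : Finset (Fin m → ℤ)) (d : ℝ) (hd0 : 0 < d) :
    ∃ S : Finset (Fin (m + 1) → ℤ), (S'.card : ℝ) * d / 2 ≤ S.card ∧
      (∀ a ∈ S, (fun i : Fin m => a i.succ) ∈ S') ∧
      ∀ a ∈ S, ∀ b ∈ S, |LBF_v G a - LBF_v G b| ≤ d := by
  rcases lt_or_ge d 1 with h | h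
  · exact LBF_small G S' d hd0 h
  · exact LBF_large G S' d h

theorem LBF_main (m : ℕ) : ∃ c : ℝ, 0 < c ∧ ∀ G : Matrix (Fin m) (Fin m) ℝ, LBF_pos G →
    ∀ T : ℝ, 0 < T → ∃ S : Finset (Fin m → ℤ),
      c * T ^ ((m : ℝ) / 2) ≤ S.card * √G.det ∧ ∀ a ∈ S, ∀ b ∈ S, qf G (a - b) ≤ T := by
  induction m with
  | zero =>
    refine ⟨1, one_pos, fun G _ T hT => ⟨{0}, ?_, ?_⟩⟩
    · simp
    · intro a _ b _
      simp [qf, hT.le]
  | succ m ih =>
    obtain ⟨c, hc, ih⟩ := ih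
    refine ⟨c * (1 / 2) ^ (((m + 1 : ℕ) : ℝ) / 2) / 2, by positivity, fun G hG T hT => ?_⟩
    have hg := LBF_g_pos hG
    obtain ⟨S', h1, h2⟩ := ih (LBF_sc G) (LBF_sc_pos hG) (T / 2) (by positivity)
    have hd0 : 0 < √(T / 2 / G 0 0) := Real.sqrt_pos.2 (by positivity)
    obtain ⟨S, k1, k2, k3⟩ := LBF_step G S' (√(T / 2 / G 0 0)) hd0
    refine ⟨S, ?_, fun a ha b hb => ?_⟩
    · rw [LBF_det G hg.ne', Real.sqrt_mul hg.le]
      have e1 : √(T / 2 / G 0 0) * √(G 0 0) = √(T / 2) := by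
        rw [← Real.sqrt_mul (by positivity), div_mul_cancel₀ _ hg.ne']
      have e2 : (T / 2) ^ ((m : ℝ) / 2) * √(T / 2) =
          (1 / 2) ^ (((m + 1 : ℕ) : ℝ) / 2) * T ^ (((m + 1 : ℕ) : ℝ) / 2) := by
        rw [Real.sqrt_eq_rpow, ← Real.rpow_add (by positivity),
          ← Real.mul_rpow (by norm_num) hT.le]
        congr 1
        · ring
        · push_cast; ring
      have h0 : (0 : ℝ) ≤ √(LBF_sc G).det := Real.sqrt_nonneg _
      calc c * (1 / 2) ^ (((m + 1 : ℕ) : ℝ) / 2) / 2 * T ^ (((m + 1 : ℕ) : ℝ) / 2)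
          = c * (T / 2) ^ ((m : ℝ) / 2) * √(T / 2) / 2 := by
            rw [mul_assoc c ((T / 2) ^ ((m : ℝ) / 2)), e2]; ring
        _ ≤ S'.card * √(LBF_sc G).det * √(T / 2) / 2 := by gcongr
        _ = (S'.card : ℝ) * √(T / 2 / G 0 0) / 2 * (√(G 0 0) * √(LBF_sc G).det) := by
            rw [← e1]; ring
        _ ≤ S.card * (√(G 0 0) * √(LBF_sc G).det) := by gcongr
    · rw [LBF_qf G hG.1 hg.ne']
      have j1 := h2 _ (k2 a ha) _ (k2 b hb)
      have j2 := k3 a ha b hb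
      have j3 : (LBF_v G a - LBF_v G b) ^ 2 ≤ T / 2 / G 0 0 := by
        rw [← Real.sq_sqrt (show 0 ≤ T / 2 / G 0 0 by positivity)]
        exact sq_le_sq' (by linarith [(abs_le.1 j2).1]) (abs_le.1 j2).2
      have j4 : G 0 0 * (LBF_v G a - LBF_v G b) ^ 2 ≤ T / 2 := by
        calc G 0 0 * (LBF_v G a - LBF_v G b) ^ 2 ≤ G 0 0 * (T / 2 / G 0 0) := by gcongr
          _ = T / 2 := by field_simp
      linarith

theorem st_LBF : ST_LBF := by
  intro m
  obtain ⟨c, hc, h⟩ := LBF_main m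
  exact ⟨c, hc, fun G hG T hT => h G (LBF_of_posDef hG) T hT⟩

end Pool.Agent.Helper19.LM
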